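import Pool.Agent.Helper95.AG.Defs
import Pool.Agent.Helper18.AF.LevS
import Pool.Agent.Helper46.AF.LevExpFin

/-!
# AG, block LPS: the level step for one parameter
-/

set_option autoImplicit false
open MeasureTheory Real Set Filter Topology
open scoped ENNReal

namespace Pool.Agent.Helper18.AG

open Pool.Agent.Helper95.AF (rr frc DC Bs shb)
open Pool.Agent.Helper95.AG
open Pool.Agent.Helper46.QP (TT Td)
open Pool.Agent.Helper82.AN (Ik Ow lawL sq SepR)

variable {d : ℕ} {h P : ℝ}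

/-! ### the sequences `et`, `pp` -/

theorem et_pos (hh : 0 < h) (i : ℕ) : 0 < et h i := by
  unfold et
  positivity

theorem et_le (_ : 0 < h) (hh1 : h ≤ 1 / 200) (i : ℕ) : et h i ≤ 1 / 200 := by
  unfold et
  have h1 : (1 : ℝ) ≤ 2 ^ i := one_le_pow₀ (by norm_num)
  rw [div_le_iff₀ (by positivity)]
  linarith

theorem et_succ (i : ℕ) : et h (i + 1) = et h i / 2 := by
  unfold et
  rw [pow_succ]
  field_simp

theorem pp_pos (hh : 0 < h) (hP : 0 < P) (i : ℕ) : 0 < pp h P i := by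
  induction i with
  | zero => exact hP
  | succ i ih =>
    have h1 := et_pos hh i
    unfold pp
    positivity

theorem pp_succ (i : ℕ) : pp h P (i + 1) = pp h P i * et h i / 16 := rfl

theorem pp_le (hh : 0 < h) (hh1 : h ≤ 1 / 200) (hP : 0 < P) (hP1 : P ≤ h / 100) (i : ℕ) : pp h P i ≤ 1 / 20000 := by
  induction i with
  | zero =>
    show P ≤ 1 / 20000
    linarith
  | succ i ih =>
    rw [pp_succ]
    have h1 := et_le hh hh1 i
    have h2 := et_pos hh i
    have h3 := pp_pos hh hP i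
    have h4 : pp h P i * et h i ≤ 1 / 20000 * 1 := mul_le_mul ih (by linarith) h2.le (by norm_num)
    linarith

/-- `12 pp i ≤ (3 / 25) et i` -/
theorem pp_et (hh : 0 < h) (hh1 : h ≤ 1 / 200) (hP : 0 < P) (hP1 : P ≤ h / 100) (i : ℕ) :
    12 * pp h P i ≤ 3 / 25 * et h i := by
  induction i with
  | zero =>
    show 12 * P ≤ 3 / 25 * (h / 2 ^ 0)
    rw [pow_zero, div_one]
    linarith
  | succ i ih =>
    rw [pp_succ, et_succ]
    have h1 := et_le hh hh1 i
    have h2 := et_pos hh i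
    have h3 := pp_pos hh hP i
    have h4 := pp_le hh hh1 hP hP1 i
    have h5 : pp h P i * et h i ≤ 1 / 20000 * et h i := mul_le_mul_of_nonneg_right h4 h2.le
    linarith

/-- the size of the thresholds -/
noncomputable def uu (h P : ℝ) (i : ℕ) : ℝ := 1 / (pp h P i * et h i * et h (i + 1))

theorem uu_pos (hh : 0 < h) (hP : 0 < P) (i : ℕ) : 0 < uu h P i := by
  unfold uu
  have h1 := pp_pos hh hP i
  have h2 := et_pos hh i
  have h3 := et_pos hh (i + 1)
  positivity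

theorem uu_mul (hh : 0 < h) (hP : 0 < P) (i : ℕ) : uu h P i * (pp h P i * et h i * et h (i + 1)) = 1 := by
  unfold uu
  have h1 := pp_pos hh hP i
  have h2 := et_pos hh i
  have h3 := et_pos hh (i + 1)
  rw [one_div, inv_mul_cancel₀ (by positivity)]

theorem one_le_uu (hh : 0 < h) (hh1 : h ≤ 1 / 200) (hP : 0 < P) (hP1 : P ≤ h / 100) (i : ℕ) : 1 ≤ uu h P i := by
  have h0 := uu_pos hh hP i
  have h1 := uu_mul hh hP i
  have h2 : pp h P i * et h i * et h (i + 1) ≤ 1 := by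
    have a1 := pp_le hh hh1 hP hP1 i
    have a2 := et_le hh hh1 i
    have a3 := et_le hh hh1 (i + 1)
    have b1 := pp_pos hh hP i
    have b2 := et_pos hh i
    have b3 := et_pos hh (i + 1)
    have c1 : pp h P i * et h i ≤ 1 * 1 := mul_le_mul (by linarith) (by linarith) b2.le (by norm_num)
    have c2 : pp h P i * et h i * et h (i + 1) ≤ 1 * 1 := mul_le_mul (by linarith) (by linarith) b3.le (by norm_num)
    linarith
  have h3 := mul_le_mul_of_nonneg_left h2 h0.le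
  linarith

/-- the rate of the thresholds -/
theorem inv_pp (hh : 0 < h) (hP : 0 < P) {B : ℝ} (hB : 1 ≤ B) (hB1 : 1 / P ≤ Real.exp B) (hB2 : 16 / h ≤ Real.exp B)
    (i : ℕ) : 1 / pp h P i ≤ Real.exp (B * ((i : ℝ) + 1) ^ 2) := by
  induction i with
  | zero =>
    show 1 / P ≤ _
    refine hB1.trans (Real.exp_le_exp.2 ?_)
    norm_num
  | succ i ih =>
    rw [pp_succ]
    have h1 := pp_pos hh hP i
    have h2 := et_pos hh i
    have h3 : 1 / (pp h P i * et h i / 16) = 1 / pp h P i * (16 / h * 2 ^ i) := by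
      unfold et
      field_simp
    rw [h3]
    have h5 : (2 : ℝ) ^ i ≤ Real.exp i := by
      have a1 : (2 : ℝ) ≤ Real.exp 1 := by linarith [Real.exp_one_gt_d9]
      calc (2 : ℝ) ^ i ≤ Real.exp 1 ^ i := pow_le_pow_left₀ (by norm_num) a1 i
        _ = Real.exp i := by
          rw [← Real.exp_nat_mul]
          simp
    calc 1 / pp h P i * (16 / h * 2 ^ i) ≤ Real.exp (B * ((i : ℝ) + 1) ^ 2) * (Real.exp B * Real.exp i) := by gcongr
      _ = Real.exp (B * ((i : ℝ) + 1) ^ 2 + (B + i)) := by rw [← Real.exp_add, ← Real.exp_add]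
      _ ≤ Real.exp (B * (((i + 1 : ℕ) : ℝ) + 1) ^ 2) := by
        refine Real.exp_le_exp.2 ?_
        push_cast
        have hi : (0 : ℝ) ≤ i := Nat.cast_nonneg i
        have h6 : 1 * (i : ℝ) ≤ B * i := mul_le_mul_of_nonneg_right hB hi
        have h7 : B * ((i : ℝ) + 1 + 1) ^ 2 = B * ((i : ℝ) + 1) ^ 2 + (2 * (B * i) + 3 * B) := by ring
        have h8 : 0 ≤ B * i := by positivity
        linarith

theorem inv_et (hh : 0 < h) {B : ℝ} (hB : 1 ≤ B) (hB2 : 16 / h ≤ Real.exp B) (i : ℕ) :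
    1 / et h i ≤ Real.exp (2 * B * ((i : ℝ) + 1) ^ 2) := by
  have h1 : 1 / et h i = 1 / h * 2 ^ i := by
    unfold et
    field_simp
  rw [h1]
  have h4 : 1 / h ≤ Real.exp B := by
    refine le_trans ?_ hB2
    exact div_le_div_of_nonneg_right (by norm_num) hh.le
  have h5 : (2 : ℝ) ^ i ≤ Real.exp i := by
    have a1 : (2 : ℝ) ≤ Real.exp 1 := by linarith [Real.exp_one_gt_d9]
    calc (2 : ℝ) ^ i ≤ Real.exp 1 ^ i := pow_le_pow_left₀ (by norm_num) a1 i
      _ = Real.exp i := by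
        rw [← Real.exp_nat_mul]
        simp
  calc 1 / h * 2 ^ i ≤ Real.exp B * Real.exp i := by gcongr
    _ = Real.exp (B + i) := by rw [← Real.exp_add]
    _ ≤ Real.exp (2 * B * ((i : ℝ) + 1) ^ 2) := by
      refine Real.exp_le_exp.2 ?_
      have hi : (0 : ℝ) ≤ i := Nat.cast_nonneg i
      have h6 : 1 * (i : ℝ) ≤ B * i := mul_le_mul_of_nonneg_right hB hi
      have h7 : 2 * B * ((i : ℝ) + 1) ^ 2 = 2 * (B * (i : ℝ) ^ 2) + 4 * (B * i) + 2 * B := by ring
      have h8 : 0 ≤ B * (i : ℝ) ^ 2 := by positivity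
      have h9 : 0 ≤ B * (i : ℝ) := by positivity
      linarith

theorem uu_le (hh : 0 < h) (hP : 0 < P) {B : ℝ} (hB : 1 ≤ B) (hB1 : 1 / P ≤ Real.exp B) (hB2 : 16 / h ≤ Real.exp B)
    (i : ℕ) : uu h P i ≤ Real.exp (6 * B * ((i : ℝ) + 1) ^ 2) := by
  have h1 := inv_pp hh hP hB hB1 hB2 i
  have h2 := inv_et hh hB hB2 i
  have hq : (1 : ℝ) ≤ ((i : ℝ) + 1) ^ 2 := by
    have : (0 : ℝ) ≤ i := Nat.cast_nonneg i
    nlinarith
  have h3 : 1 / et h (i + 1) ≤ Real.exp (1 * B * ((i : ℝ) + 1) ^ 2) * Real.exp (2 * B * ((i : ℝ) + 1) ^ 2) := by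
    rw [et_succ]
    have a1 := et_pos hh i
    have a2 : 1 / (et h i / 2) = 2 * (1 / et h i) := by field_simp
    rw [a2]
    have a3 : (2 : ℝ) ≤ Real.exp (1 * B * ((i : ℝ) + 1) ^ 2) := by
      have b1 : (2 : ℝ) ≤ Real.exp 1 := by linarith [Real.exp_one_gt_d9]
      refine b1.trans (Real.exp_le_exp.2 ?_)
      have b2 : 1 * 1 ≤ B * ((i : ℝ) + 1) ^ 2 := mul_le_mul hB hq (by norm_num) (by linarith)
      linarith
    exact mul_le_mul a3 h2 (by positivity) (Real.exp_pos _).le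
  have h4 : uu h P i = 1 / pp h P i * (1 / et h i) * (1 / et h (i + 1)) := by
    unfold uu
    rw [one_div_mul_one_div, one_div_mul_one_div]
  rw [h4]
  have p1 := pp_pos hh hP i
  have p2 := et_pos hh i
  have p3 := et_pos hh (i + 1)
  calc 1 / pp h P i * (1 / et h i) * (1 / et h (i + 1)) ≤ Real.exp (B * ((i : ℝ) + 1) ^ 2) *
        Real.exp (2 * B * ((i : ℝ) + 1) ^ 2) *
        (Real.exp (1 * B * ((i : ℝ) + 1) ^ 2) * Real.exp (2 * B * ((i : ℝ) + 1) ^ 2)) := by
        gcongr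
    _ = Real.exp (B * ((i : ℝ) + 1) ^ 2 + 2 * B * ((i : ℝ) + 1) ^ 2 +
        (1 * B * ((i : ℝ) + 1) ^ 2 + 2 * B * ((i : ℝ) + 1) ^ 2)) := by
      rw [Real.exp_add, Real.exp_add, Real.exp_add]
    _ ≤ _ := by
      refine Real.exp_le_exp.2 (le_of_eq ?_)
      ring

/-! ### the expectation -/

/-- the number of translates -/
noncomputable def MM (h P G : ℝ) (i : ℕ) : ℕ := ⌈40 * G * uu h P i⌉₊

theorem MM_ge (h P G : ℝ) (i : ℕ) : 40 * G * uu h P i ≤ MM h P G i := Nat.le_ceil _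

theorem MM_le (hh : 0 < h) (hh1 : h ≤ 1 / 200) (hP : 0 < P) (hP1 : P ≤ h / 100) {G : ℝ} (hG : 1 ≤ G) (i : ℕ) :
    (MM h P G i : ℝ) ≤ 41 * G * uu h P i := by
  have hu := one_le_uu hh hh1 hP hP1 i
  have h1 : 0 ≤ 40 * G * uu h P i := by positivity
  have h2 := (Nat.ceil_lt_add_one h1).le
  have h3 : 1 * 1 ≤ G * uu h P i := mul_le_mul hG hu (by norm_num) (by linarith)
  unfold MM
  linarith

/-- the final estimate -/
theorem fin (hh : 0 < h) (hP : 0 < P) {G L X : ℝ} {i n J N : ℕ} (hG : 1 ≤ G) (hL : 1 ≤ L) (hJ : 1 ≤ J) (hN : N = J * (n + 5))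
    (hn : 100 * uu h P i ≤ n) (hX0 : 0 ≤ X) (hX : X ≤ 1) :
    (Real.exp J * (1 + X)) ^ MM h P G i *
      Real.exp (-(MM h P G i * et h (i + 1) * (pp h P i * et h i / 10 * N * L))) ≤ Real.exp (-(G * N * L)) := by
  have hJr : (1 : ℝ) ≤ J := by exact_mod_cast hJ
  have hNr : (N : ℝ) = J * (n + 5) := by
    rw [hN]
    push_cast
    ring
  have hn0 : (0 : ℝ) ≤ n := Nat.cast_nonneg n
  have hJn : (J : ℝ) * n ≤ N := by
    rw [hNr]
    have : (0 : ℝ) ≤ J * 5 := by positivity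
    linarith
  have hN0 : (0 : ℝ) ≤ N := Nat.cast_nonneg N
  have hu := uu_mul hh hP i
  have hu0 := uu_pos hh hP i
  have p1 := pp_pos hh hP i
  have p2 := et_pos hh i
  have p3 := et_pos hh (i + 1)
  obtain ⟨v, hv⟩ : ∃ v : ℝ, v = pp h P i * et h i * et h (i + 1) := ⟨_, rfl⟩
  rw [← hv] at hu
  have hv0 : 0 < v := by
    rw [hv]
    positivity
  have h1 : Real.exp J * (1 + X) ≤ Real.exp (2 * J) := by
    have h2 : 1 + X ≤ Real.exp J := by
      have := Real.add_one_le_exp (J : ℝ)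
      linarith
    calc Real.exp J * (1 + X) ≤ Real.exp J * Real.exp J := mul_le_mul_of_nonneg_left h2 (Real.exp_pos _).le
      _ = Real.exp (2 * J) := by
        rw [← Real.exp_add]
        congr 1
        ring
  have h2 : (Real.exp J * (1 + X)) ^ MM h P G i ≤ Real.exp (MM h P G i * (2 * J)) := by
    rw [Real.exp_nat_mul]
    exact pow_le_pow_left₀ (by positivity) h1 _
  calc (Real.exp J * (1 + X)) ^ MM h P G i * Real.exp (-(MM h P G i * et h (i + 1) * (pp h P i * et h i / 10 * N * L)))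
      ≤ Real.exp (MM h P G i * (2 * J)) * Real.exp (-(MM h P G i * et h (i + 1) * (pp h P i * et h i / 10 * N * L))) :=
        mul_le_mul_of_nonneg_right h2 (Real.exp_pos _).le
    _ = Real.exp (MM h P G i * (2 * J) + -(MM h P G i * et h (i + 1) * (pp h P i * et h i / 10 * N * L))) := by rw [Real.exp_add]
    _ ≤ Real.exp (-(G * N * L)) := by
      refine Real.exp_le_exp.2 ?_
      have hMM := MM_ge h P G i
      have hM0 : (0 : ℝ) ≤ MM h P G i := Nat.cast_nonneg _
      -- `2 J ≤ v N L / 50`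
      have h3 : 2 * J ≤ v * (N * L) / 50 := by
        have h4 : J * 100 * uu h P i ≤ J * n := by
          have := mul_le_mul_of_nonneg_left hn (show (0 : ℝ) ≤ J by positivity)
          linarith
        have h5 : (N : ℝ) * 1 ≤ N * L := mul_le_mul_of_nonneg_left hL hN0
        have h6 : J * 100 * uu h P i ≤ N * L := by linarith
        have h7 := mul_le_mul_of_nonneg_left h6 hv0.le
        have h8 : v * (J * 100 * uu h P i) = J * 100 * (uu h P i * v) := by ring
        rw [h8, hu] at h7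
        linarith
      have h4 : MM h P G i * et h (i + 1) * (pp h P i * et h i / 10 * N * L) = MM h P G i * (v * (N * L) / 10) := by
        rw [hv]
        ring
      rw [h4]
      have h5 : (MM h P G i : ℝ) * (2 * J) ≤ MM h P G i * (v * (N * L) / 50) := mul_le_mul_of_nonneg_left h3 hM0
      have h6 : 40 * G * uu h P i * (v * (N * L) / 20) ≤ MM h P G i * (v * (N * L) / 20) :=
        mul_le_mul_of_nonneg_right hMM (by positivity)
      have h7 : 40 * G * uu h P i * (v * (N * L) / 20) = 2 * (G * (N * L)) * (uu h P i * v) := by ring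
      rw [h7, hu] at h6
      have h8 : 0 ≤ G * (N * L) := by positivity
      have h9 : 0 ≤ MM h P G i * (v * (N * L)) := by positivity
      linarith

/-- the size of the noise -/
theorem amp (hh : 0 < h) (hh1 : h ≤ 1 / 200) (hP : 0 < P) (hP1 : P ≤ h / 100) {G L a C x U0 Z : ℝ} {i n N : ℕ} (hG : 1 ≤ G) (hL : 1 ≤ L) (hLC : C ≤ L) (hx0 : 0 < x) (hx1 : x < 1)
    (ha : Real.exp L ≤ |a|) (hU : Real.exp (-(L + 1)) ≤ U0)
    (hn : 41 * G * uu h P i * (1 / pp h P i) * (N : ℝ) ^ x ≤ n) (hC : 1 ≤ C)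
    (hZ : Z ≤ C * ((MM h P G i * N : ℕ) : ℝ) ^ x) :
    Real.exp (-(pp h P i * n * L)) / (10 * (|a| + 1)) ^ 5 ≤ U0 * Real.exp (-Z) / 20 := by
  have p1 := pp_pos hh hP i
  have hu := one_le_uu hh hh1 hP hP1 i
  have h1 : Real.exp (-(L + 1)) * Real.exp (-Z) / 20 ≤ U0 * Real.exp (-Z) / 20 := by
    have := mul_le_mul_of_nonneg_right hU (Real.exp_pos (-Z)).le
    linarith
  refine le_trans ?_ h1
  have h2 : Real.exp (5 * L) * 100000 ≤ (10 * (|a| + 1)) ^ 5 := by
    have h3 : Real.exp L * 10 ≤ 10 * (|a| + 1) := by linarith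
    have h4 := pow_le_pow_left₀ (by positivity) h3 5
    have h5 : (Real.exp L * 10) ^ 5 = Real.exp (5 * L) * 100000 := by
      rw [mul_pow, ← Real.exp_nat_mul]
      norm_num
    linarith
  have h3 : Real.exp (-(pp h P i * n * L)) / (10 * (|a| + 1)) ^ 5 ≤ Real.exp (-(pp h P i * n * L)) / (Real.exp (5 * L) * 100000) :=
    div_le_div_of_nonneg_left (Real.exp_pos _).le (by positivity) h2
  refine h3.trans ?_
  rw [div_le_div_iff₀ (by positivity) (by norm_num), ← Real.exp_add]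
  have h4 : Z ≤ pp h P i * n * L := by
    have m1 : ((MM h P G i * N : ℕ) : ℝ) ^ x ≤ MM h P G i * (N : ℝ) ^ x := by
      push_cast
      rw [Real.mul_rpow (Nat.cast_nonneg _) (Nat.cast_nonneg _)]
      refine mul_le_mul_of_nonneg_right ?_ (Real.rpow_nonneg (Nat.cast_nonneg _) _)
      have m2 : (1 : ℝ) ≤ MM h P G i := by
        have := MM_ge h P G i
        have h5 : 1 * 1 ≤ G * uu h P i := mul_le_mul hG hu (by norm_num) (by linarith)
        linarith
      calc (MM h P G i : ℝ) ^ x ≤ (MM h P G i : ℝ) ^ (1 : ℝ) := Real.rpow_le_rpow_of_exponent_le m2 hx1.le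
        _ = MM h P G i := Real.rpow_one _
    have m3 : (MM h P G i : ℝ) * (N : ℝ) ^ x ≤ 41 * G * uu h P i * (N : ℝ) ^ x :=
      mul_le_mul_of_nonneg_right (MM_le hh hh1 hP hP1 hG i) (Real.rpow_nonneg (Nat.cast_nonneg _) _)
    have m4 : 41 * G * uu h P i * (N : ℝ) ^ x ≤ pp h P i * n := by
      have := mul_le_mul_of_nonneg_left hn p1.le
      have m5 : pp h P i * (41 * G * uu h P i * (1 / pp h P i) * (N : ℝ) ^ x) = 41 * G * uu h P i * (N : ℝ) ^ x := by
        field_simp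
      linarith
    have m6 : C * ((MM h P G i * N : ℕ) : ℝ) ^ x ≤ C * (pp h P i * n) := mul_le_mul_of_nonneg_left (by linarith) (by linarith)
    have m7 : C * (pp h P i * n) ≤ L * (pp h P i * n) := mul_le_mul_of_nonneg_right hLC (by positivity)
    linarith
  have h5 : Real.exp (-(pp h P i * n * L)) * 20 ≤ Real.exp (-Z) * 20 :=
    mul_le_mul_of_nonneg_right (Real.exp_le_exp.2 (by linarith)) (by norm_num)
  refine h5.trans ?_
  rw [Real.exp_add]
  have h6 : 1 ≤ Real.exp (-(L + 1)) * Real.exp (5 * L) := by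
    rw [← Real.exp_add]
    exact Real.one_le_exp (by linarith)
  have h7 := mul_le_mul_of_nonneg_left h6 (Real.exp_pos (-Z)).le
  have h8 := Real.exp_pos (-Z)
  linarith

/-- the thresholds -/
theorem thr (hh : 0 < h) (hP : 0 < P) (C₀ : ℝ) (hC₀ : 1 ≤ C₀) :
    ∃ c : ℝ, ∀ i : ℕ, C₀ * uu h P i ^ 2 ≤ Real.exp (c * ((i : ℝ) + 1) ^ 2) := by
  obtain ⟨B, hB⟩ : ∃ B : ℝ, B = max 1 (max (Real.log (1 / P)) (Real.log (16 / h))) := ⟨_, rfl⟩
  have hBa : 1 ≤ B := by
    rw [hB]
    exact le_max_left _ _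
  have hBb : 1 / P ≤ Real.exp B := by
    rw [← Real.exp_log (show 0 < 1 / P by positivity), hB]
    exact Real.exp_le_exp.2 ((le_max_left _ _).trans (le_max_right _ _))
  have hBc : 16 / h ≤ Real.exp B := by
    rw [← Real.exp_log (show 0 < 16 / h by positivity), hB]
    exact Real.exp_le_exp.2 ((le_max_right _ _).trans (le_max_right _ _))
  refine ⟨Real.log C₀ + 12 * B, fun i => ?_⟩
  have h1 := uu_le hh hP hBa hBb hBc i
  have h2 := uu_pos hh hP i
  have h3 : C₀ ≤ Real.exp (Real.log C₀ * ((i : ℝ) + 1) ^ 2) := by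
    have h4 : Real.log C₀ * 1 ≤ Real.log C₀ * ((i : ℝ) + 1) ^ 2 := by
      refine mul_le_mul_of_nonneg_left ?_ (Real.log_nonneg hC₀)
      have : (0 : ℝ) ≤ i := Nat.cast_nonneg i
      nlinarith
    calc C₀ = Real.exp (Real.log C₀ * 1) := by rw [mul_one, Real.exp_log (by linarith)]
      _ ≤ _ := Real.exp_le_exp.2 h4
  have h4 : uu h P i ^ 2 ≤ Real.exp (12 * B * ((i : ℝ) + 1) ^ 2) := by
    calc uu h P i ^ 2 ≤ Real.exp (6 * B * ((i : ℝ) + 1) ^ 2) ^ 2 := pow_le_pow_left₀ h2.le h1 2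
      _ = Real.exp (12 * B * ((i : ℝ) + 1) ^ 2) := by
        rw [← Real.exp_nat_mul]
        congr 1
        push_cast
        ring
  calc C₀ * uu h P i ^ 2 ≤ Real.exp (Real.log C₀ * ((i : ℝ) + 1) ^ 2) * Real.exp (12 * B * ((i : ℝ) + 1) ^ 2) :=
        mul_le_mul h3 h4 (by positivity) (Real.exp_pos _).le
    _ = _ := by
      rw [← Real.exp_add]
      congr 1
      ring

/-! ### the block -/

theorem meas_Rl (a L : ℝ) (hL : 0 ≤ L) (i n : ℕ) : Measurable (Rl h P a L i n) :=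
  Pool.Agent.Helper4.AF.rr_meas a n (by positivity) (Real.exp_pos _).le

theorem meas_EvS (a L : ℝ) (hL : 0 ≤ L) (i n J : ℕ) (y : ℝ) : MeasurableSet (EvS h P a L i n J y) := by
  unfold EvS
  refine measurableSet_lt (meas_Rl a L hL _ _) ?_
  refine ((Finset.measurable_sum _ fun j _ => ?_).sub_const _).sub_const _
  exact (meas_Rl a L hL i n).comp (Pool.Agent.Helper18.AF.meas_shb _)

/-- **LPS'**: level step, one parameter -/
theorem lev_probS {h P : ℝ} (hh : 0 < h) (hh1 : h ≤ 1 / 200) (hP : 0 < P) (hP1 : P ≤ h / 100)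
    {γ τ x : ℝ} (hd : 0 < d) (hγ : 0 < γ) (h1 : 1 / d ≤ τ) (h2 : τ * γ < x) (hx : x < 1) (G : ℝ) (hG : 1 ≤ G) :
    ∃ (c : ℝ) (K : ℕ → ℝ), (∀ i : ℕ, K i ≤ Real.exp (c * ((i : ℝ) + 1) ^ 2)) ∧
      ∀ D : ℝ, 0 < D → ∃ L₀ : ℝ, 1 ≤ L₀ ∧ ∀ L : ℝ, L₀ ≤ L → ∀ (i n J : ℕ), 1 ≤ J → K i ≤ n →
      K i * ((J * (n + 5) : ℕ) : ℝ) ^ x ≤ n →
      ∀ (k : ℕ) (e : Fin k → Td d → ℝ) (U : Fin (k + 1) → ℝ) (a : ℝ) (α : Td d) (y : ℝ), (∀ i, Continuous (e i)) →
        Real.exp L ≤ |a| → |a| ≤ Real.exp (L + 1) → Real.exp (-(L + 1)) ≤ |U 0| → DC D τ α →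
        -(et h i / 2 * (J * (n + 5) : ℕ) * L) ≤ y →
        lawL d {w | et h (i + 1) ≤ volume.real {θ : Td d | sq α (frc γ e U w) θ ∈ EvS h P a L i n J y}} ≤
          ENNReal.ofReal (Real.exp (-(G * (J * (n + 5) : ℕ) * L))) := by
  have hE := Pool.Agent.Helper46.AF.lev_exp
  obtain ⟨C, hC, hE⟩ := hE
  have hdR : (0 : ℝ) < d := by exact_mod_cast hd
  have hτ : 0 < τ := lt_of_lt_of_le (by positivity) h1
  have hx0 : 0 < x := lt_trans (by positivity) h2
  have hlC : 0 ≤ Real.log C := Real.log_nonneg hC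
  obtain ⟨C₀, hC₀⟩ : ∃ C₀ : ℝ, C₀ = 100 * (200 + 20 * Real.log C) + 41 * G + 100 := ⟨_, rfl⟩
  have hC₀1 : 1 ≤ C₀ := by linarith
  obtain ⟨c, hc⟩ := thr hh hP C₀ hC₀1
  refine ⟨c, fun i => C₀ * uu h P i ^ 2, hc, fun D hD => ?_⟩
  obtain ⟨CA, hCA, hamp⟩ := Pool.Agent.Helper10.AF.amp_ok (x := x) hd hγ h1 h2 D hD
  refine ⟨CA, hCA, fun L hLL i n J hJ hKn hKx k e U a α y he ha1 ha2 hU hα hy => ?_⟩
  have hL1 : 1 ≤ L := hCA.trans hLL
  obtain ⟨N, hN⟩ : ∃ N : ℕ, N = J * (n + 5) := ⟨_, rfl⟩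
  have hu := one_le_uu hh hh1 hP hP1 i
  have hu2 : uu h P i ≤ uu h P i ^ 2 := by nlinarith
  have hum := uu_mul hh hP i
  have p1 := pp_pos hh hP i
  have p2 := et_pos hh i
  have p3 := et_pos hh (i + 1)
  have p4 := pp_pos hh hP (i + 1)
  have hn0 : (0 : ℝ) ≤ n := Nat.cast_nonneg n
  -- thresholds
  have t1 : 100 * uu h P i ≤ n := by
    have : 100 * uu h P i ≤ C₀ * uu h P i ^ 2 := by
      have a1 : 100 * uu h P i ≤ 100 * uu h P i ^ 2 := by linarith
      have a2 : 100 * uu h P i ^ 2 ≤ C₀ * uu h P i ^ 2 := mul_le_mul_of_nonneg_right (by linarith) (by positivity)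
      linarith
    linarith
  have hpu : 1 ≤ pp h P i * et h i * uu h P i := by
    -- `pp * et * et' * uu = 1`, `et' ≤ 1`
    have a1 := et_le hh hh1 (i + 1)
    have a2 : pp h P i * et h i * uu h P i * et h (i + 1) ≤ pp h P i * et h i * uu h P i * 1 := mul_le_mul_of_nonneg_left (by linarith) (by positivity)
    have a3 : pp h P i * et h i * uu h P i * et h (i + 1) = uu h P i * (pp h P i * et h i * et h (i + 1)) := by ring
    rw [a3, hum] at a2
    linarith
  have t2 : 100 * (200 + 20 * Real.log C) ≤ pp h P i * et h i * n := by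
    have a1 : C₀ * uu h P i ≤ n := le_trans (mul_le_mul_of_nonneg_left hu2 (by linarith)) hKn
    have a2 := mul_le_mul_of_nonneg_left a1 (show 0 ≤ pp h P i * et h i by positivity)
    have a3 : pp h P i * et h i * (C₀ * uu h P i) = C₀ * (pp h P i * et h i * uu h P i) := by ring
    have a4 : C₀ * 1 ≤ C₀ * (pp h P i * et h i * uu h P i) := mul_le_mul_of_nonneg_left hpu (by linarith)
    have a5 : 100 * (200 + 20 * Real.log C) ≤ C₀ := by linarith
    linarith
  have t3 : 41 * G * uu h P i * (1 / pp h P i) * ((N : ℕ) : ℝ) ^ x ≤ n := by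
    refine le_trans ?_ hKx
    rw [← hN]
    refine mul_le_mul_of_nonneg_right ?_ (Real.rpow_nonneg (Nat.cast_nonneg _) _)
    have a1 : 1 / pp h P i ≤ uu h P i := by
      rw [div_le_iff₀ p1]
      have a2 : pp h P i * et h i * uu h P i ≤ uu h P i * pp h P i := by
        have a3 := et_le hh hh1 i
        have a4 : pp h P i * uu h P i * et h i ≤ pp h P i * uu h P i * 1 := mul_le_mul_of_nonneg_left (by linarith) (by positivity)
        linarith
      linarith
    have a2 : 41 * G * uu h P i * (1 / pp h P i) ≤ 41 * G * uu h P i * uu h P i := mul_le_mul_of_nonneg_left a1 (by positivity)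
    have a3 : 41 * G * uu h P i * uu h P i = 41 * G * uu h P i ^ 2 := by ring
    have a4 : 41 * G * uu h P i ^ 2 ≤ C₀ * uu h P i ^ 2 := mul_le_mul_of_nonneg_right (by linarith) (by positivity)
    linarith
  have hN1 : 1 ≤ N := by
    rw [hN]
    exact Nat.one_le_iff_ne_zero.2 (by positivity)
  have hM1 : 1 ≤ MM h P G i := by
    have a1 := MM_ge h P G i
    have a2 : 1 * 1 ≤ G * uu h P i := mul_le_mul hG hu (by norm_num) (by linarith)
    have a3 : (1 : ℝ) ≤ MM h P G i := by linarith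
    exact_mod_cast a3
  obtain ⟨r₀, Na, P', β, hr₀, hS, hNa, hP', hint, hZ⟩ := hamp N (MM h P G i) α hN1 hM1 hα
  have hU0 : U 0 ≠ 0 := by
    intro hq
    rw [hq, abs_zero] at hU
    linarith [Real.exp_pos (-(L + 1))]
  have hamp' := amp hh hh1 hP hP1 (U0 := |U 0|) (n := n) (N := N) (i := i) hG hL1 hLL hx0 hx ha1 hU t3 hCA hZ
  obtain ⟨D', hD'⟩ : ∃ D' : Set (Ow d × Td d), D' = {p | sq α (frc γ e U p.1) p.2 ∈ EvS h P a L i n J y} := ⟨_, rfl⟩
  have hDm : MeasurableSet D' := by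
    rw [hD']
    exact Pool.Agent.Helper18.AF.meas_sq he (meas_EvS a L (by linarith) i n J y)
  obtain ⟨Q, hQ⟩ : ∃ Q : ℝ, Q = Real.exp (pp h P i * et h i / 10 * N * L) := ⟨_, rfl⟩
  have hQ1 : 1 ≤ Q := by
    rw [hQ]
    exact Real.one_le_exp (by positivity)
  have hlQ : Real.log Q = pp h P i * et h i / 10 * N * L := by rw [hQ, Real.log_exp]
  obtain ⟨y', hy'⟩ : ∃ y' : ℝ, y' = et h i * N * L + y := ⟨_, rfl⟩
  have hyy : et h i / 2 * N * L ≤ y' := by
    rw [← hN] at hy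
    rw [hy']
    linarith
  have hy0 : 0 ≤ y' := le_trans (by positivity) hyy
  obtain ⟨X, hX⟩ : ∃ X : ℝ, X = Q * (4 / (Real.exp (-(2 * pp h P (i + 1) * N * L)) * Real.exp (-(pp h P (i + 1) * N * L)) ^ 2)) *
      Real.exp (-(pp h P i * y')) * (C * (|a| + 1) ^ 26 * (C / Real.exp (-(pp h P i * n * L))) ^ (12 * pp h P i)) ^ J := ⟨_, rfl⟩
  have ha3 : |a| + 1 ≤ Real.exp (L + 2) := by
    have a1 : Real.exp (L + 2) = Real.exp (L + 1) * Real.exp 1 := by
      rw [← Real.exp_add]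
      congr 1
      ring
    have a2 : (2 : ℝ) ≤ Real.exp 1 := by linarith [Real.exp_one_gt_d9]
    have a3 : (1 : ℝ) ≤ Real.exp (L + 1) := Real.one_le_exp (by linarith)
    have a4 := mul_le_mul_of_nonneg_left a2 (Real.exp_pos (L + 1)).le
    rw [a1]
    linarith
  have hX1 : X ≤ 1 := by
    have hq := Pool.Agent.Helper18.AF.key (y' := y') (N := N) hC p1 (pp_le hh hh1 hP hP1 i) p2 (pp_et hh hh1 hP hP1 i) hL1 ha3 hJ hN t2 hyy
    rw [hX, hQ, pp_succ]
    exact hq
  have hX0 : 0 ≤ X := by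
    rw [hX]
    have : 0 ≤ (C / Real.exp (-(pp h P i * n * L))) ^ (12 * pp h P i) :=
      Real.rpow_nonneg (div_nonneg (by linarith) (Real.exp_pos _).le) _
    positivity
  have hBs : EvS h P a L i n J y = Bs a (Real.exp (-(pp h P i * n * L))) (Real.exp (-(2 * pp h P i * n * L))) (2 * n * L)
      (Real.exp (-(pp h P (i + 1) * N * L))) (Real.exp (-(2 * pp h P (i + 1) * N * L))) (2 * N * L) n J y' := by
    unfold EvS Bs Rl
    rw [hy', hN]
    ext b
    show (_ : ℝ) < _ ↔ (_ : ℝ) < _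
    rw [sub_sub]
  have hmain : ∀ θ : Td d, ∫⁻ w, ∏ l, (1 + ENNReal.ofReal Q * {w : Ow d | (w, θ + β l) ∈ D'}.indicator 1 w) ∂lawL d ≤
      (ENNReal.ofReal (Real.exp J * (1 + X))) ^ (MM h P G i) := by
    intro θ
    have hS2 : SepR α r₀ (J * (n + 5)) (MM h P G i) β := by
      rw [← hN]
      exact hS
    have hS' : SepR α r₀ (J * (n + 5)) (MM h P G i) (fun l => θ + β l) := by
      intro u v huv
      have h3 := hS2 u v huv
      have h4 : dist (θ + β u.1 + (u.2 : ℕ) • α) (θ + β v.1 + (v.2 : ℕ) • α) =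
          dist (β u.1 + (u.2 : ℕ) • α) (β v.1 + (v.2 : ℕ) • α) := by
        rw [add_assoc, add_assoc, dist_add_left]
      show r₀ ≤ dist (θ + β u.1 + (u.2 : ℕ) • α) (θ + β v.1 + (v.2 : ℕ) • α)
      rw [h4]
      exact h3
    have h3 := hE d γ k e U α r₀ a (Real.exp (-(pp h P i * n * L))) (Real.exp (-(2 * pp h P i * n * L))) (2 * n * L)
      (Real.exp (-(pp h P (i + 1) * N * L))) (Real.exp (-(2 * pp h P (i + 1) * N * L))) (2 * N * L) y' (pp h P i) Q n J (MM h P G i) Na P'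
      (fun l => θ + β l) hγ he hU0 hr₀ hS' hNa hP' (by rw [← hN]; exact hint) (le_trans (Real.one_le_exp (by linarith)) ha1)
      (Real.exp_pos _) (Real.exp_le_one_iff.2 (by
        have : 0 ≤ pp h P i * n * L := by positivity
        linarith)) (Real.exp_pos _) (Real.exp_le_one_iff.2 (by
        have : 0 ≤ pp h P (i + 1) * N * L := by positivity
        linarith)) (Real.exp_pos _) (Real.exp_pos _) p1 (by linarith [pp_le hh hh1 hP hP1 i]) (by positivity) (by
        have a1 : (J : ℝ) * n ≤ N := by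
          rw [hN]
          push_cast
          have : (0 : ℝ) ≤ J * 5 := by positivity
          linarith
        have a2 : (J : ℝ) * n * (2 * L) ≤ N * (2 * L) := mul_le_mul_of_nonneg_right a1 (by linarith)
        linarith) (le_of_eq (by congr 1; ring)) hy0 (by linarith) hamp'
    rw [← hX] at h3
    refine le_trans (le_of_eq ?_) h3
    refine lintegral_congr fun w => Finset.prod_congr rfl fun l _ => ?_
    rw [← hBs]
    congr 2
    by_cases hm : sq α (frc γ e U w) (θ + β l) ∈ EvS h P a L i n J y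
    · rw [indicator_of_mem hm, indicator_of_mem (show w ∈ {w : Ow d | (w, θ + β l) ∈ D'} by rw [hD']; exact hm)]
      rfl
    · rw [indicator_of_notMem hm, indicator_of_notMem (show w ∉ {w : Ow d | (w, θ + β l) ∈ D'} by rw [hD']; exact hm)]
  have hcc := Pool.Agent.Helper33.AF.conc hDm hQ1 hmain (et h (i + 1))
  have hfin := fin hh hP (L := L) (n := n) (J := J) (N := N) (i := i) hG hL1 hJ hN t1 hX0 hX1
  rw [hD'] at hcc
  refine hcc.trans ?_
  rw [← ENNReal.ofReal_pow (by positivity), ← ENNReal.ofReal_mul (by positivity), hlQ, ← hN]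
  exact ENNReal.ofReal_le_ofReal hfin

end Pool.Agent.Helper18.AG
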